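import Pool.Agent.L5helper73.PC.Rig

/-!
# The coordinate ring of the space of vector configurations with given dependent triples
-/

set_option autoImplicit false
set_option linter.unusedSimpArgs false

namespace Pool.Agent.L5helper73.PC

open MvPolynomial

variable {n : ℕ}

/-- the rows of the generic `n × 3` matrix -/
noncomputable def gen (n : ℕ) (i : Fin n) : Fin 3 → MvPolynomial (Fin n × Fin 3) ℚ := fun c => X (i, c)

/-- the minors of the generic `n × 3` matrix -/
noncomputable def minor (n : ℕ) (t : Fin n × Fin n × Fin n) : MvPolynomial (Fin n × Fin 3) ℚ :=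
  det3 (gen n t.1) (gen n t.2.1) (gen n t.2.2)

/-- the ideal generated by the minors in `D` -/
noncomputable def relIdeal (D : Finset (Fin n × Fin n × Fin n)) :
    Ideal (MvPolynomial (Fin n × Fin 3) ℚ) :=
  Ideal.span (minor n '' (D : Set (Fin n × Fin n × Fin n)))

/-- The coordinate ring of the space of the `n × 3` matrices whose minor with the rows `i`, `j`, `k` is
zero for the triples `(i, j, k)` in `D` and invertible for all the other triples. -/
abbrev Conf (n : ℕ) (D : Finset (Fin n × Fin n × Fin n)) : Type :=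
  Localization.Away (Ideal.Quotient.mk (relIdeal D) (∏ t ∈ Dᶜ, minor n t))

/-- the rows of the matrix -/
noncomputable def coord (D : Finset (Fin n × Fin n × Fin n)) (i : Fin n) (c : Fin 3) : Conf n D :=
  algebraMap (MvPolynomial (Fin n × Fin 3) ℚ ⧸ relIdeal D) (Conf n D)
    (Ideal.Quotient.mk (relIdeal D) (X (i, c)))

/-- the rows `w i` satisfy the conditions given by `D` -/
def IsConf {A : Type} [CommRing A] (D : Finset (Fin n × Fin n × Fin n)) (w : Fin n → Fin 3 → A) :
    Prop :=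
  ∀ t : Fin n × Fin n × Fin n, (t ∈ D → det3 (w t.1) (w t.2.1) (w t.2.2) = 0) ∧
    (t ∉ D → IsUnit (det3 (w t.1) (w t.2.1) (w t.2.2)))

theorem aeval_minor {A : Type} [CommRing A] [Algebra ℚ A] (w : Fin n → Fin 3 → A)
    (t : Fin n × Fin n × Fin n) :
    aeval (fun p : Fin n × Fin 3 => w p.1 p.2) (minor n t) = det3 (w t.1) (w t.2.1) (w t.2.2) := by
  simp only [minor, det3_eq, gen, map_add, map_sub, map_mul, aeval_X]

theorem conf_lift {A : Type} [CommRing A] [Algebra ℚ A] {D : Finset (Fin n × Fin n × Fin n)}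
    {w : Fin n → Fin 3 → A} (h : IsConf D w) :
    ∃ φ : Conf n D →ₐ[ℚ] A, ∀ i c, φ (coord D i c) = w i c := by
  have h0 : ∀ y ∈ relIdeal D, (aeval (fun p : Fin n × Fin 3 => w p.1 p.2) :
      MvPolynomial (Fin n × Fin 3) ℚ →ₐ[ℚ] A) y = 0 := by
    intro y hy
    have : relIdeal D ≤ RingHom.ker (aeval (fun p : Fin n × Fin 3 => w p.1 p.2) :
        MvPolynomial (Fin n × Fin 3) ℚ →ₐ[ℚ] A) := by
      rw [relIdeal, Ideal.span_le]
      rintro _ ⟨t, ht, rfl⟩
      rw [SetLike.mem_coe, RingHom.mem_ker, aeval_minor]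
      exact (h t).1 (Finset.mem_coe.1 ht)
    exact this hy
  let φ₁ : (MvPolynomial (Fin n × Fin 3) ℚ ⧸ relIdeal D) →ₐ[ℚ] A := Ideal.Quotient.liftₐ _ _ h0
  have hu : IsUnit (φ₁ (Ideal.Quotient.mk (relIdeal D) (∏ t ∈ Dᶜ, minor n t))) := by
    change IsUnit (aeval (fun p : Fin n × Fin 3 => w p.1 p.2) (∏ t ∈ Dᶜ, minor n t))
    rw [map_prod]
    refine IsUnit.prod_iff.2 fun t ht => ?_
    rw [aeval_minor]
    exact (h t).2 (Finset.mem_compl.1 ht)
  refine ⟨IsLocalization.liftAlgHom (M := Submonoid.powers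
    (Ideal.Quotient.mk (relIdeal D) (∏ t ∈ Dᶜ, minor n t))) (f := φ₁) ?_, fun i c => ?_⟩
  · rintro ⟨_, k, rfl⟩
    change IsUnit (φ₁ _)
    rw [map_pow]
    exact hu.pow k
  · rw [coord, IsLocalization.liftAlgHom_apply, IsLocalization.lift_eq]
    change aeval (fun p : Fin n × Fin 3 => w p.1 p.2) (X (i, c)) = _
    rw [aeval_X]

theorem conf_ext {A : Type} [CommRing A] [Algebra ℚ A] {D : Finset (Fin n × Fin n × Fin n)}
    (φ ψ : Conf n D →ₐ[ℚ] A) (h : ∀ i c, φ (coord D i c) = ψ (coord D i c)) : φ = ψ := by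
  refine IsLocalization.algHom_ext (Submonoid.powers
    (Ideal.Quotient.mk (relIdeal D) (∏ t ∈ Dᶜ, minor n t))) ?_
  refine Ideal.Quotient.algHom_ext _ ?_
  refine MvPolynomial.algHom_ext fun ⟨i, c⟩ => ?_
  exact h i c

theorem isConf_map {A B : Type} [CommRing A] [CommRing B] {D : Finset (Fin n × Fin n × Fin n)}
    {w : Fin n → Fin 3 → A} (h : IsConf D w) (φ : A →+* B) : IsConf D fun i c => φ (w i c) := by
  intro t
  refine ⟨fun ht => ?_, fun ht => ?_⟩
  · have := det3_map φ (w t.1) (w t.2.1) (w t.2.2)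
    rw [this, (h t).1 ht, map_zero]
  · have := det3_map φ (w t.1) (w t.2.1) (w t.2.2)
    rw [this]
    exact ((h t).2 ht).map φ

theorem isConf_coord (D : Finset (Fin n × Fin n × Fin n)) : IsConf D (coord D) := by
  have key : ∀ t : Fin n × Fin n × Fin n, det3 (coord D t.1) (coord D t.2.1) (coord D t.2.2) =
      algebraMap (MvPolynomial (Fin n × Fin 3) ℚ ⧸ relIdeal D) (Conf n D)
        (Ideal.Quotient.mk (relIdeal D) (minor n t)) := by
    intro t
    simp only [minor, det3_eq, gen, map_add, map_sub, map_mul, coord]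
  intro t
  refine ⟨fun ht => ?_, fun ht => ?_⟩
  · have hm : minor n t ∈ relIdeal D := Ideal.subset_span ⟨t, Finset.mem_coe.2 ht, rfl⟩
    rw [key, Ideal.Quotient.eq_zero_iff_mem.2 hm, map_zero]
  · rw [key]
    have h1 : IsUnit (algebraMap (MvPolynomial (Fin n × Fin 3) ℚ ⧸ relIdeal D) (Conf n D)
        (Ideal.Quotient.mk (relIdeal D) (∏ t ∈ Dᶜ, minor n t))) :=
      IsLocalization.Away.algebraMap_isUnit _
    have h2 := map_prod ((algebraMap (MvPolynomial (Fin n × Fin 3) ℚ ⧸ relIdeal D)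
      (Conf n D)).comp (Ideal.Quotient.mk (relIdeal D))) (minor n) Dᶜ
    have h3 : IsUnit (∏ t ∈ Dᶜ, ((algebraMap (MvPolynomial (Fin n × Fin 3) ℚ ⧸ relIdeal D)
      (Conf n D)).comp (Ideal.Quotient.mk (relIdeal D))) (minor n t)) := by
      rw [← h2]
      exact h1
    exact IsUnit.prod_iff.1 h3 t (Finset.mem_compl.2 ht)

instance (D : Finset (Fin n × Fin n × Fin n)) : Algebra.FinitePresentation ℚ (Conf n D) := by
  have : Algebra.FiniteType ℚ (Conf n D) := inferInstance
  exact Algebra.FinitePresentation.of_finiteType.1 this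

end Pool.Agent.L5helper73.PC
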