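import Pool.Agent.L5helper73.PC.Uni
import Pool.Agent.L5helper66.BS.One

/-!
# The conjecture of Beilinson and Soulé and spaces of configurations of points in the plane
-/

set_option autoImplicit false

open CategoryTheory AlgebraicGeometry Opposite Pool.Agent.L5helper68.BS Pool.Agent.L5helper66.BS

namespace Pool.Agent.L5helper73.PC

variable {H : ℤ → ℤ → Scheme.{0}ᵒᵖ ⥤ AddCommGrpCat.{0}}

variable (H) in
/-- Every cohomology class of `Spec F`, `F` a field of characteristic zero, comes from the spectrum of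
a finitely generated subring of `F` (over `ℚ`). -/
def Spreads : Prop :=
  ∀ (k j : ℤ) (F : Type) [Field F] [CharZero F] (z : (H k j).obj (op (Sp F))),
    ∃ S : Set F, S.Finite ∧ ∃ w : (H k j).obj (op (Sp (Algebra.adjoin ℚ S))),
      (H k j).map (sm (algebraMap (Algebra.adjoin ℚ S) F)).op w = z

/-- The space of the `n × 3` matrices whose minor with the rows `i`, `j`, `k` is zero for the triples
`(i, j, k)` in `D` and invertible for all the other triples. -/
noncomputable def stratum (n : ℕ) (D : Finset (Fin n × Fin n × Fin n)) : Scheme.{0} := Sp (Conf n D)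

/-- this space is smooth over `ℚ` -/
def IsSmoothStratum (n : ℕ) (D : Finset (Fin n × Fin n × Fin n)) : Prop := Algebra.Smooth ℚ (Conf n D)

variable (H) in
/-- `H^k(X, ℚ(j)) = 0` for all the smooth spaces `X = stratum n D` -/
def ZeroOnStrata (k j : ℤ) : Prop :=
  ∀ (n : ℕ) (D : Finset (Fin n × Fin n × Fin n)), IsSmoothStratum n D → Zero H k j (stratum n D)

theorem zero_field (hs : Spreads H) {k j : ℤ} (h : ZeroOnStrata H k j) (F : Type) [Field F]
    [CharZero F] : Zero H k j (Sp F) := by
  intro z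
  obtain ⟨S, hS, w, rfl⟩ := hs k j F z
  obtain ⟨n, D, hsm, β, γ, hβγ⟩ := universal S hS
  have e1 : algebraMap (Algebra.adjoin ℚ S) F = γ.comp β := by
    ext y
    exact (hβγ y).symm
  have e2 : sm (algebraMap (Algebra.adjoin ℚ S) F) = sm γ ≫ sm β := by
    rw [e1]
    exact Spec.map_comp _ _
  rw [e2, op_comp, (H k j).map_comp]
  have e3 : (H k j).map (sm β).op w = 0 := h n D hsm _
  rw [ConcreteCategory.comp_apply, e3, map_zero]

theorem zero_conf {J : ℤ} (h : BSSmooth H J) {k j : ℤ} (hk : k < 0) (hj : j ≤ J) :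
    ZeroOnStrata H k j := by
  intro n D hsm
  let X : Over (Sp ℚ) := Over.mk (sm (algebraMap ℚ (Conf n D)))
  exact h ℚ X (smooth_sp hsm) (by change QuasiCompact (sm _); infer_instance)
    (by change IsSeparated (sm _); infer_instance) k j hk hj

theorem each_weight (hH : IsMotivicCohomology H) (hs : Spreads H) (J : ℤ) : BSProjective H J ↔
    ∀ k j : ℤ, k < 0 → j ≤ J → ZeroOnStrata H k j := by
  constructor
  · intro h k j hk hj
    exact zero_conf (((main hH J).out 0 2 rfl rfl).1 h) hk hj
  · intro h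
    refine ((main hH J).out 1 0 rfl rfl).1 fun k j hk hj => ?_
    exact zero_field hs (h k j hk hj) ℂ

theorem one_degree_conf (hH : IsMotivicCohomology H) (hs : Spreads H) :
    (∀ J : ℤ, BSProjective H J) ↔ ∀ j : ℤ, 2 ≤ j → ZeroOnStrata H (-1) j := by
  constructor
  · intro h j hj
    exact (each_weight hH hs j).1 (h j) (-1) j (by norm_num) le_rfl
  · intro h
    refine ((one_degree hH).out 2 0 rfl rfl).1 fun j hj => ?_
    exact zero_field hs (h j hj) ℂ

theorem diag_conf (hH : IsMotivicCohomology H) (hs : Spreads H) (c : ℤ) (hc : 0 ≤ c)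
    (h : ZeroOnStrata H (-1) c) (s : ℕ) (hs1 : 1 ≤ s) (F : Type) [Field F] [CharZero F] :
    Zero H (-(s : ℤ)) (c + 1 - s) (Sp F) := by
  have h1 : Zero H (-1) (c + 1 - 1) (Sp ℂ) := by
    rw [add_sub_cancel_right]
    exact zero_field hs h ℂ
  exact ((diag_tfae hH (c + 1) (by omega)).out 0 2 rfl rfl).1 h1 s hs1 F

end Pool.Agent.L5helper73.PC
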