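import Pool.Agent.L5helper73.PC.Vec

/-!
# Rigidity: all vector configurations with the matroid of a good configuration
-/

set_option autoImplicit false
set_option linter.unusedSimpArgs false

namespace Pool.Agent.L5helper73.PC

open MvPolynomial Matrix

variable {m : ℕ} {F : Type} [Field F]

/-- the matrix with the columns `p`, `q`, `r` -/
def cols {A : Type} (p q r : Fin 3 → A) : Matrix (Fin 3) (Fin 3) A :=
  Matrix.of fun i j => ![p, q, r] j i

theorem det_cols {A : Type} [CommRing A] (p q r : Fin 3 → A) : (cols p q r).det = det3 p q r := by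
  rw [det3_eq, Matrix.det_fin_three]
  simp [cols]
  ring

/-- the families with the matroid of a good configuration are the images under the general linear
group, up to unit factors, of specialisations -/
theorem rigid {𝒱 : Finset (Vec m)} {a : Fin m → F} (hG : Good 𝒱 a) (hc : core m ⊆ 𝒱)
    {A : Type} [CommRing A] (w : Vec m → Fin 3 → A) (hw : Pattern 𝒱 a w) :
    ∃ (g : Matrix (Fin 3) (Fin 3) A) (x : Fin m → A), IsUnit g.det ∧
      ∀ v ∈ 𝒱, ∃ u : Aˣ, w v = (u : A) • g.mulVec (ev x v) := by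
  obtain ⟨c1, c2, c3, c4, -⟩ := core_mem (m := m)
  replace c1 := hc c1
  replace c2 := hc c2
  replace c3 := hc c3
  replace c4 := hc c4
  set W1 := w (num 0) with hW1
  set W2 := w e2 with hW2
  set W3 := w e3 with hW3
  set W4 := w e4 with hW4
  have d0 : IsUnit (det3 W1 W2 W3) := (hw _ c1 _ c2 _ c3).2 (by simp [det3_eq])
  have d1 : IsUnit (det3 W4 W2 W3) := (hw _ c4 _ c2 _ c3).2 (by simp [det3_eq])
  have d2 : IsUnit (det3 W1 W4 W3) := (hw _ c1 _ c4 _ c3).2 (by simp [det3_eq])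
  have d3 : IsUnit (det3 W1 W2 W4) := (hw _ c1 _ c2 _ c4).2 (by simp [det3_eq])
  set g : Matrix (Fin 3) (Fin 3) A := cols (det3 W4 W2 W3 • W1) (det3 W1 W4 W3 • W2)
    (det3 W1 W2 W4 • W3) with hg
  have hdet : IsUnit g.det := by
    rw [hg, det_cols, det3_smul]
    exact ((d1.mul d2).mul d3).mul d0
  have hinv : g⁻¹ * g = 1 := Matrix.nonsing_inv_mul g hdet
  have hinv' : g * g⁻¹ = 1 := Matrix.mul_nonsing_inv g hdet
  have hdet' : IsUnit (g⁻¹).det := by
    have := congrArg Matrix.det hinv'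
    rw [Matrix.det_mul, Matrix.det_one] at this
    exact IsUnit.of_mul_eq_one_right _ this
  have g1 : g.mulVec ![1, 0, 0] = det3 W4 W2 W3 • W1 := by
    ext i
    simp [hg, cols, Matrix.mulVec, dotProduct, Fin.sum_univ_three]
  have g2 : g.mulVec ![0, 1, 0] = det3 W1 W4 W3 • W2 := by
    ext i
    simp [hg, cols, Matrix.mulVec, dotProduct, Fin.sum_univ_three]
  have g3 : g.mulVec ![0, 0, 1] = det3 W1 W2 W4 • W3 := by
    ext i
    simp [hg, cols, Matrix.mulVec, dotProduct, Fin.sum_univ_three]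
  have g4 : g.mulVec ![1, 1, 1] = det3 W1 W2 W3 • W4 := by
    ext i
    fin_cases i <;>
    · simp [hg, cols, Matrix.mulVec, dotProduct, Fin.sum_univ_three, det3_eq]
      ring
  have back : ∀ (c : A) (hc : IsUnit c) (v t : Fin 3 → A), g.mulVec v = c • t →
      ∃ u : Aˣ, (g⁻¹).mulVec t = (u : A) • v := by
    intro c hc v t h
    refine ⟨hc.unit⁻¹, ?_⟩
    have h1 : (g⁻¹).mulVec (g.mulVec v) = v := by
      rw [Matrix.mulVec_mulVec, hinv, Matrix.one_mulVec]
    rw [h, Matrix.mulVec_smul] at h1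
    rw [← h1, smul_smul, IsUnit.val_inv_mul, one_smul]
  have hw' : Pattern 𝒱 a fun v => (g⁻¹).mulVec (w v) := by
    intro p hp q hq r hr
    have := hw p hp q hq r hr
    constructor
    · intro h
      rw [det3_mulVec, this.1 h, mul_zero]
    · intro h
      rw [det3_mulVec]
      exact hdet'.mul (this.2 h)
  obtain ⟨x, hx⟩ := hG A (fun v => (g⁻¹).mulVec (w v)) hw' ⟨back _ d1 _ _ g1, back _ d2 _ _ g2,
    back _ d3 _ _ g3, back _ d0 _ _ g4⟩
  refine ⟨g, x, hdet, fun v hv => ?_⟩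
  obtain ⟨u, hu⟩ := hx v hv
  refine ⟨u, ?_⟩
  rw [← Matrix.mulVec_smul, ← hu, Matrix.mulVec_mulVec, hinv', Matrix.one_mulVec]

/-- the differences of numbers -/
theorem det3_num {A : Type} [CommRing A] (x : Fin m → A) (p q : MvPolynomial (Fin m) ℤ) :
    det3 (ev x (num p)) (ev x (num q)) (ev x e3) = aeval x q - aeval x p := by
  simp [det3_eq]

/-- the vanishing numbers and the numbers which do not vanish -/
theorem rel_of {𝒱 : Finset (Vec m)} {a : Fin m → F} (hc : core m ⊆ 𝒱)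
    {A : Type} [CommRing A] {w : Vec m → Fin 3 → A} (hw : Pattern 𝒱 a w)
    {g : Matrix (Fin 3) (Fin 3) A} {x : Fin m → A} (hg : IsUnit g.det)
    (h : ∀ v ∈ 𝒱, ∃ u : Aˣ, w v = (u : A) • g.mulVec (ev x v)) {p q : MvPolynomial (Fin m) ℤ}
    (hp : num p ∈ 𝒱) (hq : num q ∈ 𝒱) :
    (aeval a (p - q) = 0 → aeval x (p - q) = 0) ∧
      (aeval a (p - q) ≠ 0 → IsUnit (aeval x (p - q))) := by
  obtain ⟨-, -, c3, -⟩ := core_mem (m := m)
  replace c3 := hc c3
  obtain ⟨u1, h1⟩ := h _ hq
  obtain ⟨u2, h2⟩ := h _ hp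
  obtain ⟨u3, h3⟩ := h _ c3
  have e1 : det3 (w (num q)) (w (num p)) (w e3) = u1 * u2 * u3 * (g.det * aeval x (p - q)) := by
    rw [h1, h2, h3, det3_smul, det3_mulVec, det3_num, map_sub]
  have e2 : det3 (ev a (num q)) (ev a (num p)) (ev a e3) = aeval a (p - q) := by
    rw [det3_num, map_sub]
  have := hw _ hq _ hp _ c3
  rw [e1, e2] at this
  constructor
  · intro h0
    have h4 := this.1 h0
    have h5 := ((u1 * u2 * u3).isUnit.mul_right_eq_zero).1 (by
      rw [Units.val_mul, Units.val_mul]; exact h4)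
    exact (hg.mul_right_eq_zero).1 h5
  · intro h0
    exact isUnit_of_mul_isUnit_right (isUnit_of_mul_isUnit_right (this.2 h0))

end Pool.Agent.L5helper73.PC
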