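import Pool.Agent.L5helper73.PC.Cf
import Pool.Agent.L5helper68.BS.Main

/-!
# Universality: finitely generated subrings of fields are retracts of smooth spaces of configurations
-/

set_option autoImplicit false
set_option linter.unusedSimpArgs false

namespace Pool.Agent.L5helper73.PC

open MvPolynomial

variable {m : ℕ} {F : Type} [Field F] [CharZero F]

/-- integral and rational polynomials -/
theorem aeval_int {A : Type} [CommRing A] [Algebra ℚ A] (x : Fin m → A)
    (p : MvPolynomial (Fin m) ℤ) : aeval x (map (Int.castRingHom ℚ) p) = aeval x p := by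
  have := MvPolynomial.aeval_map_algebraMap (R := ℤ) ℚ x p
  rwa [show algebraMap ℤ ℚ = Int.castRingHom ℚ from RingHom.ext_int _ _] at this

theorem ev_poly {A : Type} [CommRing A] (x : Fin m → A) (p q r : Vec m) :
    det3 (ev x p) (ev x q) (ev x r) = aeval x (det3 p q r) := by
  simp only [det3_eq, ev, map_add, map_sub, map_mul]

theorem ev_map {A B : Type} [CommRing A] [CommRing B] (f : A →+* B) (x : Fin m → A) (v : Vec m)
    (j : Fin 3) : f (ev x v j) = ev (fun k => f (x k)) v j := by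
  have e1 : (f.comp (aeval x : MvPolynomial (Fin m) ℤ →ₐ[ℤ] A).toRingHom) =
      (aeval (fun k => f (x k)) : MvPolynomial (Fin m) ℤ →ₐ[ℤ] B).toRingHom := by
    refine MvPolynomial.ringHom_ext (fun r => ?_) (fun k => ?_)
    · simp
    · simp
  exact DFunLike.congr_fun e1 (v j)

/-- the kernel of the evaluation at `a` -/
noncomputable abbrev ker (a : Fin m → F) : Ideal (MvPolynomial (Fin m) ℚ) :=
  RingHom.ker (aeval a : MvPolynomial (Fin m) ℚ →ₐ[ℚ] F)

/-- all configurations with the matroid `D` over all `ℚ`-algebras come from zeros `x` of the kernel, at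
which `f` is invertible -/
def Param (a : Fin m → F) (f : MvPolynomial (Fin m) ℚ) {n : ℕ} (V : Fin n → Vec m)
    (D : Finset (Fin n × Fin n × Fin n)) : Prop :=
  ∀ (A : Type) [CommRing A] [Algebra ℚ A] (w : Fin n → Fin 3 → A), IsConf D w →
    ∃ (g : Matrix (Fin 3) (Fin 3) A) (x : Fin m → A), IsUnit g.det ∧
      (∀ i, ∃ u : Aˣ, w i = (u : A) • g.mulVec (ev x (V i))) ∧
      (∀ h ∈ ker a, aeval x h = 0) ∧ IsUnit (aeval x f)

theorem exists_param (a : Fin m → F) (f : MvPolynomial (Fin m) ℚ) (hf : aeval a f ≠ 0) :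
    ∃ (n : ℕ) (V : Fin n → Vec m) (D : Finset (Fin n × Fin n × Fin n)),
      (∀ t, t ∈ D ↔ det3 (ev a (V t.1)) (ev a (V t.2.1)) (ev a (V t.2.2)) = 0) ∧
      (∀ v ∈ core m, ∃ i, V i = v) ∧ Param a f V D := by
  classical
  have hall : ∀ g : MvPolynomial (Fin m) ℚ, ∃ (p q : MvPolynomial (Fin m) ℤ) (c : ℚ),
      Reach a p ∧ Reach a q ∧ c ≠ 0 ∧ map (Int.castRingHom ℚ) (p - q) = C c * g := by
    intro g
    obtain ⟨gz, c, hc, hg⟩ := Pool.Agent.L5helper68.BS.exists_int g
    obtain ⟨p, q, hp, hq, rfl⟩ := exists_sub a gz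
    exact ⟨p, q, c, hp, hq, hc, hg⟩
  choose P Q c hP hQ hc hPQ using hall
  obtain ⟨G, hG⟩ : (ker a).FG := IsNoetherian.noetherian _
  obtain ⟨𝒱, hcore, hgood, hmem⟩ := exists_good a
    ((insert f G).toList.map P ++ (insert f G).toList.map Q) (by
      intro p hp
      rcases List.mem_append.1 hp with hp | hp
      · obtain ⟨g, -, rfl⟩ := List.mem_map.1 hp
        exact hP g
      · obtain ⟨g, -, rfl⟩ := List.mem_map.1 hp
        exact hQ g)
  have hP' : ∀ g ∈ insert f G, num (P g) ∈ 𝒱 := fun g hg =>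
    hmem _ (List.mem_append.2 (Or.inl (List.mem_map.2 ⟨g, Finset.mem_toList.2 hg, rfl⟩)))
  have hQ' : ∀ g ∈ insert f G, num (Q g) ∈ 𝒱 := fun g hg =>
    hmem _ (List.mem_append.2 (Or.inr (List.mem_map.2 ⟨g, Finset.mem_toList.2 hg, rfl⟩)))
  let e : Fin 𝒱.card ≃ 𝒱 := 𝒱.equivFin.symm
  let V : Fin 𝒱.card → Vec m := fun i => (e i : Vec m)
  refine ⟨𝒱.card, V, Finset.univ.filter fun t =>
    det3 (ev a (V t.1)) (ev a (V t.2.1)) (ev a (V t.2.2)) = 0, fun t => by simp, fun v hv =>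
      ⟨e.symm ⟨v, hcore hv⟩, by simp [V]⟩, ?_⟩
  intro A _ _ w hw
  let W : Vec m → Fin 3 → A := fun v => if h : v ∈ 𝒱 then w (e.symm ⟨v, h⟩) else 0
  have hW : ∀ v (hv : v ∈ 𝒱), W v = w (e.symm ⟨v, hv⟩) := fun v hv => dif_pos hv
  have hWi : ∀ i, W (V i) = w i := by
    intro i
    rw [hW _ (e i).2]
    congr 1
    exact e.symm_apply_apply i
  have hpat : Pattern 𝒱 a W := by
    intro u hu v hv t ht
    have h1 := hw (e.symm ⟨u, hu⟩, e.symm ⟨v, hv⟩, e.symm ⟨t, ht⟩)
    have e1 : V (e.symm ⟨u, hu⟩) = u := by simp [V]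
    have e2 : V (e.symm ⟨v, hv⟩) = v := by simp [V]
    have e3 : V (e.symm ⟨t, ht⟩) = t := by simp [V]
    simp only [Finset.mem_filter, Finset.mem_univ, true_and] at h1
    rw [e1, e2, e3] at h1
    rw [hW u hu, hW v hv, hW t ht]
    exact h1
  obtain ⟨g, x, hg, hx⟩ := rigid hgood hcore W hpat
  have hrel : ∀ y ∈ insert f G, (aeval a y = 0 → aeval x y = 0) ∧
      (aeval a y ≠ 0 → IsUnit (aeval x y)) := by
    intro y hy
    have h1 := rel_of hcore hpat hg hx (hP' y hy) (hQ' y hy)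
    rw [← aeval_int, ← aeval_int, hPQ, map_mul, map_mul, aeval_C, aeval_C] at h1
    have hu : IsUnit (algebraMap ℚ A (c y)) := (isUnit_iff_ne_zero.2 (hc y)).map _
    refine ⟨fun h2 => ?_, fun h2 => ?_⟩
    · have := h1.1 (by rw [h2, mul_zero])
      exact (hu.mul_right_eq_zero).1 this
    · have := h1.2 (mul_ne_zero (by simpa using hc y) h2)
      exact isUnit_of_mul_isUnit_right this
  refine ⟨g, x, hg, fun i => ?_, ?_, (hrel f (Finset.mem_insert_self _ _)).2 hf⟩
  · obtain ⟨u, hu⟩ := hx (V i) (e i).2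
    exact ⟨u, by rw [← hWi, hu]⟩
  · have hle : ker a ≤ RingHom.ker (aeval x : MvPolynomial (Fin m) ℚ →ₐ[ℚ] A) := by
      rw [← hG]
      refine Ideal.span_le.2 fun y hy => ?_
      rw [SetLike.mem_coe, RingHom.mem_ker]
      refine (hrel y (Finset.mem_insert_of_mem hy)).1 ?_
      have : y ∈ ker a := by
        rw [← hG]
        exact Ideal.subset_span hy
      exact this
    exact fun h hh => hle hh

/-- the converse -/
theorem isConf_of {a : Fin m → F} {n : ℕ} {V : Fin n → Vec m} {D : Finset (Fin n × Fin n × Fin n)}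
    (hD : ∀ t, t ∈ D ↔ det3 (ev a (V t.1)) (ev a (V t.2.1)) (ev a (V t.2.2)) = 0)
    {A : Type} [CommRing A] [Algebra ℚ A] {x : Fin m → A} (hx : ∀ h ∈ ker a, aeval x h = 0)
    {g : Matrix (Fin 3) (Fin 3) A} {u : Fin n → A} {w : Fin n → Fin 3 → A}
    (hw : ∀ i, w i = u i • g.mulVec (ev x (V i)))
    (hunit : ∀ t, t ∉ D → IsUnit (det3 (w t.1) (w t.2.1) (w t.2.2))) : IsConf D w := by
  intro t
  refine ⟨fun ht => ?_, hunit t⟩
  have h1 := (hD t).1 ht
  rw [ev_poly, ← aeval_int] at h1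
  have h2 := hx _ ((RingHom.mem_ker).2 h1)
  rw [hw, hw, hw, det3_smul, det3_mulVec, ev_poly, ← aeval_int, h2, mul_zero, mul_zero]

theorem smooth_conf {a : Fin m → F} {f : MvPolynomial (Fin m) ℚ} {n : ℕ} {V : Fin n → Vec m}
    {D : Finset (Fin n × Fin n × Fin n)}
    (hD : ∀ t, t ∈ D ↔ det3 (ev a (V t.1)) (ev a (V t.2.1)) (ev a (V t.2.2)) = 0)
    (hP : Param a f V D)
    (hs : Algebra.FormallySmooth ℚ (Localization.Away (Ideal.Quotient.mk (ker a) f))) :
    Algebra.Smooth ℚ (Conf n D) := by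
  refine ⟨?_, inferInstance⟩
  refine Algebra.FormallySmooth.of_comp_surjective ?_
  intro B _ _ N hN φ
  have hnil : IsNilpotent N := ⟨2, hN⟩
  obtain ⟨g', x', hg', hw', hk', hf'⟩ := hP (B ⧸ N) (fun i c => φ (coord D i c))
    (isConf_map (isConf_coord D) φ.toRingHom)
  -- the parameters
  let θ₁ : (MvPolynomial (Fin m) ℚ ⧸ ker a) →ₐ[ℚ] B ⧸ N := Ideal.Quotient.liftₐ _ (aeval x') hk'
  have hu : ∀ y : Submonoid.powers (Ideal.Quotient.mk (ker a) f), IsUnit (θ₁ y) := by
    rintro ⟨_, k, rfl⟩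
    rw [map_pow]
    exact IsUnit.pow k hf'
  let θ₂ : Localization.Away (Ideal.Quotient.mk (ker a) f) →ₐ[ℚ] B ⧸ N :=
    IsLocalization.liftAlgHom (M := Submonoid.powers (Ideal.Quotient.mk (ker a) f)) (f := θ₁) hu
  obtain ⟨θ, hθ⟩ := Algebra.FormallySmooth.comp_surjective ℚ
    (Localization.Away (Ideal.Quotient.mk (ker a) f)) N hN θ₂
  let x : Fin m → B := fun k => θ (algebraMap (MvPolynomial (Fin m) ℚ ⧸ ker a) _
    (Ideal.Quotient.mk (ker a) (X k)))
  have hx : ∀ h, aeval x h = θ (algebraMap (MvPolynomial (Fin m) ℚ ⧸ ker a) _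
      (Ideal.Quotient.mk (ker a) h)) := by
    intro h
    have : (aeval x : MvPolynomial (Fin m) ℚ →ₐ[ℚ] B) = (θ.comp ((Algebra.ofId _ _).restrictScalars ℚ :
        (MvPolynomial (Fin m) ℚ ⧸ ker a) →ₐ[ℚ] _)).comp (Ideal.Quotient.mkₐ ℚ (ker a)) := by
      refine MvPolynomial.algHom_ext fun k => ?_
      rw [aeval_X]
      rfl
    exact DFunLike.congr_fun this h
  have hk : ∀ h ∈ ker a, aeval x h = 0 := by
    intro h hh
    rw [hx, Ideal.Quotient.eq_zero_iff_mem.2 hh, map_zero, map_zero]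
  have hxx : ∀ k, Ideal.Quotient.mk N (x k) = x' k := by
    intro k
    have h1 := DFunLike.congr_fun hθ (algebraMap (MvPolynomial (Fin m) ℚ ⧸ ker a) _
      (Ideal.Quotient.mk (ker a) (X k)))
    rw [AlgHom.comp_apply] at h1
    refine Eq.trans h1 ?_
    rw [IsLocalization.liftAlgHom_apply, IsLocalization.lift_eq]
    change aeval x' (X k) = _
    rw [aeval_X]
  -- the matrix and the factors
  have hsurj := Ideal.Quotient.mk_surjective (I := N)
  choose u' hu' using hw'
  choose s hs' using hsurj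
  let g : Matrix (Fin 3) (Fin 3) B := Matrix.of fun i j => s (g' i j)
  let u : Fin n → B := fun i => s (u' i)
  let w : Fin n → Fin 3 → B := fun i => u i • g.mulVec (ev x (V i))
  have hww : ∀ i c, Ideal.Quotient.mk N (w i c) = φ (coord D i c) := by
    intro i c
    have h1 := congrFun (hu' i) c
    change φ (coord D i c) = _ at h1
    rw [h1]
    have h2 : ∀ j, Ideal.Quotient.mk N (ev x (V i) j) = ev x' (V i) j := by
      intro j
      unfold ev
      have h3 : (Ideal.Quotient.mk N) (aeval x (V i j)) =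
          aeval (fun k => Ideal.Quotient.mk N (x k)) (V i j) := by
        have := MvPolynomial.aeval_algebraMap_apply (R := ℤ) (A := B) (B := B ⧸ N) x (V i j)
        exact this.symm
      rw [h3]
      congr 2
      exact funext hxx
    simp only [w, Pi.smul_apply, Matrix.mulVec, dotProduct, smul_eq_mul, map_mul, map_sum, u, g,
      Matrix.of_apply, hs', h2]
  have hdet : ∀ t : Fin n × Fin n × Fin n, Ideal.Quotient.mk N (det3 (w t.1) (w t.2.1) (w t.2.2)) =
      φ (det3 (coord D t.1) (coord D t.2.1) (coord D t.2.2)) := by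
    intro t
    have h1 := det3_map (Ideal.Quotient.mk N) (w t.1) (w t.2.1) (w t.2.2)
    have h2 := det3_map φ.toRingHom (coord D t.1) (coord D t.2.1) (coord D t.2.2)
    rw [← h1]
    refine Eq.trans ?_ h2
    simp only [hww]
    rfl
  have hconf : IsConf D w := by
    refine isConf_of hD hk (fun i => rfl) fun t ht => ?_
    rw [← IsNilpotent.isUnit_quotient_mk_iff hnil, hdet]
    exact ((isConf_coord D t).2 ht).map φ
  obtain ⟨ψ, hψ⟩ := conf_lift hconf
  refine ⟨ψ, conf_ext _ _ fun i c => ?_⟩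
  rw [AlgHom.comp_apply, hψ]
  exact hww i c

theorem retract {a : Fin m → F} {f : MvPolynomial (Fin m) ℚ} {n : ℕ} {V : Fin n → Vec m}
    {D : Finset (Fin n × Fin n × Fin n)}
    (hD : ∀ t, t ∈ D ↔ det3 (ev a (V t.1)) (ev a (V t.2.1)) (ev a (V t.2.2)) = 0)
    (hV : ∀ v ∈ core m, ∃ i, V i = v) (hP : Param a f V D) :
    ∃ (β : (MvPolynomial (Fin m) ℚ ⧸ ker a) →ₐ[ℚ] Conf n D) (γ : Conf n D →ₐ[ℚ] F),
      ∀ y, γ (β (Ideal.Quotient.mk (ker a) y)) = aeval a y := by
  obtain ⟨g, x, hg, hw, hk, -⟩ := hP (Conf n D) (coord D) (isConf_coord D)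
  have hconf : IsConf D fun i => ev a (V i) := by
    intro t
    refine ⟨(hD t).1, fun ht => isUnit_iff_ne_zero.2 fun h0 => ht ((hD t).2 h0)⟩
  obtain ⟨γ, hγ⟩ := conf_lift hconf
  refine ⟨Ideal.Quotient.liftₐ _ (aeval x) hk, γ, ?_⟩
  set h : Matrix (Fin 3) (Fin 3) F := g.map γ with hh
  have key : ∀ v ∈ core m, ∃ c : F, ∀ i, ev a v i = c * ∑ j, h i j * ev (fun k => γ (x k)) v j := by
    intro v hv
    obtain ⟨i, rfl⟩ := hV v hv
    obtain ⟨u, hu⟩ := hw i
    refine ⟨γ u, fun c => ?_⟩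
    rw [← hγ, hu]
    simp only [Pi.smul_apply, Matrix.mulVec, dotProduct, smul_eq_mul, map_mul, map_sum, hh,
      Matrix.map_apply]
    congr 1
    refine Finset.sum_congr rfl fun j _ => ?_
    congr 1
    exact ev_map (γ : Conf n D →+* F) x (V i) j
  obtain ⟨c1, c2, c3, c4, -, -, -, c5⟩ := core_mem (m := m)
  have hx : ∀ k, γ (x k) = a k := by
    intro k
    obtain ⟨d1, k1⟩ := key _ c1
    obtain ⟨d2, k2⟩ := key _ c2
    obtain ⟨d3, k3⟩ := key _ c3
    obtain ⟨d4, k4⟩ := key _ c4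
    obtain ⟨d5, k5⟩ := key _ (c5 k)
    simp only [ev_num, ev_e2, ev_e3, ev_e4, Fin.sum_univ_three, Fin.forall_fin_succ,
      Matrix.cons_val_zero, Matrix.cons_val_one, Matrix.cons_val, map_zero, map_one, mul_one,
      mul_zero, add_zero, zero_add, aeval_X, Fin.succ_zero_eq_one, Fin.succ_one_eq_two,
      IsEmpty.forall_iff, and_true] at k1 k2 k3 k4 k5
    obtain ⟨k10, k11, k12⟩ := k1
    obtain ⟨k20, k21, k22⟩ := k2
    obtain ⟨k30, k31, k32⟩ := k3
    obtain ⟨k40, k41, k42⟩ := k4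
    obtain ⟨k50, k51, k52⟩ := k5
    have n1 : d1 ≠ 0 := fun h0 => by rw [h0, zero_mul] at k10; exact one_ne_zero k10
    have n2 : d2 ≠ 0 := fun h0 => by rw [h0, zero_mul] at k21; exact one_ne_zero k21
    have n3 : d3 ≠ 0 := fun h0 => by rw [h0, zero_mul] at k32; exact one_ne_zero k32
    have z1 : h 1 0 = 0 := by simpa [n1] using k11.symm
    have z2 : h 0 1 = 0 := by simpa [n2] using k20.symm
    have z3 : h 0 2 = 0 := by simpa [n3] using k30.symm
    have z4 : h 1 2 = 0 := by simpa [n3] using k31.symm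
    rw [z2, z3] at k40
    rw [z1, z4] at k41
    rw [z2] at k50
    rw [z1] at k51
    have n4 : d4 ≠ 0 := fun h0 => by rw [h0, zero_mul] at k40; exact one_ne_zero k40
    have e1 : h 0 0 = h 1 1 := by
      apply mul_left_cancel₀ n4
      linear_combination k41 - k40
    linear_combination (γ (x k)) * k50 - k51 + (γ (x k)) * d5 * e1
  intro y
  change γ (aeval x y) = _
  rw [← AlgHom.comp_apply]
  congr 1
  refine MvPolynomial.algHom_ext fun k => ?_
  rw [AlgHom.comp_apply, aeval_X, aeval_X, hx]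

/-- generic smoothness -/
theorem exists_smooth (a : Fin m → F) : ∃ f : MvPolynomial (Fin m) ℚ, aeval a f ≠ 0 ∧
    Algebra.FormallySmooth ℚ (Localization.Away (Ideal.Quotient.mk (ker a) f)) := by
  have hp : (ker a).IsPrime := RingHom.ker_isPrime _
  set B := MvPolynomial (Fin m) ℚ ⧸ ker a with hB
  have : IsDomain B := Ideal.Quotient.isDomain _
  have hft : Algebra.FiniteType ℚ B := inferInstance
  have hfp : Algebra.FinitePresentation ℚ B := Algebra.FinitePresentation.of_finiteType.1 hft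
  have h1 : Algebra.EssFiniteType B (FractionRing B) :=
    Algebra.EssFiniteType.of_isLocalization _ (nonZeroDivisors B)
  have h2 : Algebra.EssFiniteType ℚ (FractionRing B) := Algebra.EssFiniteType.comp ℚ B _
  have h3 : Algebra.FormallySmooth ℚ (FractionRing B) := inferInstance
  have h4 : IsLocalization (nonZeroDivisors B) (Localization.AtPrime (⊥ : Ideal B)) := by
    have e : nonZeroDivisors B = (⊥ : Ideal B).primeCompl := by
      ext y
      rw [mem_nonZeroDivisors_iff_ne_zero]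
      exact Iff.rfl
    rw [e]
    exact inferInstance
  have h5 : Algebra.IsSmoothAt ℚ (⊥ : Ideal B) := Algebra.FormallySmooth.of_equiv
    ((IsLocalization.algEquiv (nonZeroDivisors B) (FractionRing B)
      (Localization.AtPrime (⊥ : Ideal B))).restrictScalars ℚ)
  obtain ⟨y, hy, hs⟩ := Algebra.IsSmoothAt.exists_notMem_smooth ℚ (⊥ : Ideal B)
  obtain ⟨f, rfl⟩ := Ideal.Quotient.mk_surjective y
  refine ⟨f, fun h0 => hy ?_, hs.formallySmooth⟩
  have : f ∈ ker a := h0
  rw [Ideal.mem_bot]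
  exact Ideal.Quotient.eq_zero_iff_mem.2 this

/-- **Universality.** Every finitely generated subring of a field of characteristic zero is a retract,
over the field, of the coordinate ring of a smooth space of configurations. -/
theorem universal (S : Set F) (hS : S.Finite) : ∃ (n : ℕ) (D : Finset (Fin n × Fin n × Fin n)),
    Algebra.Smooth ℚ (Conf n D) ∧ ∃ (β : Algebra.adjoin ℚ S →+* Conf n D) (γ : Conf n D →+* F),
      ∀ y, γ (β y) = y := by
  obtain ⟨m, a, rfl⟩ : ∃ (m : ℕ) (a : Fin m → F), Set.range a = S := by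
    have := hS.fintype
    refine ⟨_, fun i => ((Fintype.equivFin S).symm i : F), ?_⟩
    ext y
    simp only [Set.mem_range]
    constructor
    · rintro ⟨i, rfl⟩
      exact ((Fintype.equivFin S).symm i).2
    · intro hy
      exact ⟨Fintype.equivFin S ⟨y, hy⟩, by simp⟩
  obtain ⟨f, hf, hs⟩ := exists_smooth a
  obtain ⟨n, V, D, hD, hV, hP⟩ := exists_param a f hf
  obtain ⟨β, γ, h⟩ := retract hD hV hP
  refine ⟨n, D, smooth_conf hD hP hs, ?_⟩
  have e1 : Algebra.adjoin ℚ (Set.range a) = (aeval a : MvPolynomial (Fin m) ℚ →ₐ[ℚ] F).range :=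
    Algebra.adjoin_range_eq_range_aeval ℚ a
  have hsurj : ∀ y : Algebra.adjoin ℚ (Set.range a), ∃ p : MvPolynomial (Fin m) ℚ, aeval a p = y := by
    intro y
    have h6 : (y : F) ∈ (aeval a : MvPolynomial (Fin m) ℚ →ₐ[ℚ] F).range := by
      rw [← e1]
      exact y.2
    exact h6
  let ρ : MvPolynomial (Fin m) ℚ →ₐ[ℚ] Algebra.adjoin ℚ (Set.range a) :=
    (aeval a : MvPolynomial (Fin m) ℚ →ₐ[ℚ] F).codRestrict _ (fun p => by
      rw [e1]
      exact ⟨p, rfl⟩)
  have hρ : Function.Surjective ρ := by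
    intro y
    obtain ⟨p, hp⟩ := hsurj y
    exact ⟨p, Subtype.ext hp⟩
  have hker : RingHom.ker ρ = ker a := by
    ext p
    rw [RingHom.mem_ker, RingHom.mem_ker]
    exact Subtype.ext_iff
  let E := Ideal.quotientKerAlgEquivOfSurjective hρ
  let E' := Ideal.quotientEquivAlgOfEq ℚ hker
  refine ⟨(β.comp (E'.toAlgHom.comp E.symm.toAlgHom)).toRingHom, γ.toRingHom, fun y => ?_⟩
  obtain ⟨p, rfl⟩ := hρ y
  have h1 : E.symm (ρ p) = Ideal.Quotient.mk _ p := by
    rw [AlgEquiv.symm_apply_eq]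
    rfl
  change γ (β (E' (E.symm (ρ p)))) = _
  rw [h1]
  exact h p

end Pool.Agent.L5helper73.PC
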