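import Mathlib

/-!
# Point configurations in the projective plane: the constructions of von Staudt

A configuration is a finite set `𝒱` of vectors `v : Fin 3 → ℤ[X_1, …, X_m]` (homogeneous coordinates of
points in the plane). At a point `a : Fin m → F` it has a matroid: the set of the triples with
determinant zero. `Good 𝒱 a`: every normalised family of vectors `w v`, `v ∈ 𝒱`, over any commutative
ring with the same matroid consists of unit multiples of the specialisations `v(x)` for some `x`.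
-/

set_option autoImplicit false
set_option linter.unusedSimpArgs false

namespace Pool.Agent.L5helper73.PC

open MvPolynomial

/-- the determinant of three vectors -/
def det3 {A : Type} [CommRing A] (p q r : Fin 3 → A) : A := Matrix.det ![p, q, r]

section basic

variable {A : Type} [CommRing A]

theorem det3_eq (p q r : Fin 3 → A) : det3 p q r =
    p 0 * (q 1 * r 2 - q 2 * r 1) - p 1 * (q 0 * r 2 - q 2 * r 0) + p 2 * (q 0 * r 1 - q 1 * r 0) := by
  unfold det3
  rw [Matrix.det_fin_three]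
  simp
  ring

theorem det3_smul (a b c : A) (p q r : Fin 3 → A) :
    det3 (a • p) (b • q) (c • r) = a * b * c * det3 p q r := by
  simp only [det3_eq, Pi.smul_apply, smul_eq_mul]
  ring

theorem det3_mulVec (M : Matrix (Fin 3) (Fin 3) A) (p q r : Fin 3 → A) :
    det3 (M.mulVec p) (M.mulVec q) (M.mulVec r) = M.det * det3 p q r := by
  simp only [det3_eq, Matrix.mulVec, dotProduct, Fin.sum_univ_three, Matrix.det_fin_three]
  ring

theorem det3_map {B : Type} [CommRing B] (φ : A →+* B) (p q r : Fin 3 → A) :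
    det3 (fun c => φ (p c)) (fun c => φ (q c)) (fun c => φ (r c)) = φ (det3 p q r) := by
  simp only [det3_eq, map_add, map_sub, map_mul]

end basic

/-- vectors with polynomial entries -/
abbrev Vec (m : ℕ) : Type := Fin 3 → MvPolynomial (Fin m) ℤ

variable {m : ℕ}

/-- the value of a vector at `x` -/
noncomputable def ev {A : Type} [CommRing A] (x : Fin m → A) (v : Vec m) : Fin 3 → A :=
  fun c => aeval x (v c)

/-- the vector which represents the number `p` -/
noncomputable def num (p : MvPolynomial (Fin m) ℤ) : Vec m := ![1, p, 0]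

/-- the point at infinity of the line of the numbers -/
noncomputable def e2 : Vec m := ![0, 1, 0]

/-- the point at infinity of the vertical direction -/
noncomputable def e3 : Vec m := ![0, 0, 1]

/-- the last point of the frame -/
noncomputable def e4 : Vec m := ![1, 1, 1]

/-- an auxiliary point -/
noncomputable def vB : Vec m := ![1, 0, 1]

/-- an auxiliary point -/
noncomputable def vD : Vec m := ![0, 1, -1]

section evals

variable {A : Type} [CommRing A] (x : Fin m → A)

@[simp] theorem ev_num (p : MvPolynomial (Fin m) ℤ) : ev x (num p) = ![1, aeval x p, 0] := by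
  ext c; fin_cases c <;> simp [ev, num]

@[simp] theorem ev_e2 : ev x (e2 : Vec m) = ![0, 1, 0] := by
  ext c; fin_cases c <;> simp [ev, e2]

@[simp] theorem ev_e3 : ev x (e3 : Vec m) = ![0, 0, 1] := by
  ext c; fin_cases c <;> simp [ev, e3]

@[simp] theorem ev_e4 : ev x (e4 : Vec m) = ![1, 1, 1] := by
  ext c; fin_cases c <;> simp [ev, e4]

@[simp] theorem ev_vB : ev x (vB : Vec m) = ![1, 0, 1] := by
  ext c; fin_cases c <;> simp [ev, vB]

@[simp] theorem ev_vD : ev x (vD : Vec m) = ![0, 1, -1] := by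
  ext c; fin_cases c <;> simp [ev, vD]

@[simp] theorem ev_cons (p q r : MvPolynomial (Fin m) ℤ) :
    ev x (![p, q, r] : Vec m) = ![aeval x p, aeval x q, aeval x r] := by
  ext c; fin_cases c <;> simp [ev]

end evals

open Classical in
/-- the frame -/
noncomputable def frame (m : ℕ) : Finset (Vec m) := {num 0, e2, e3, e4}

variable {F : Type} [Field F]

/-- the vectors `w v` have the same matroid as the vectors `v(a)`, `v ∈ 𝒱` -/
def Pattern {A : Type} [CommRing A] (𝒱 : Finset (Vec m)) (a : Fin m → F) (w : Vec m → Fin 3 → A) :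
    Prop :=
  ∀ u ∈ 𝒱, ∀ v ∈ 𝒱, ∀ t ∈ 𝒱, (det3 (ev a u) (ev a v) (ev a t) = 0 → det3 (w u) (w v) (w t) = 0) ∧
    (det3 (ev a u) (ev a v) (ev a t) ≠ 0 → IsUnit (det3 (w u) (w v) (w t)))

/-- the vectors of the frame have their standard positions -/
def Normal {A : Type} [CommRing A] (w : Vec m → Fin 3 → A) : Prop :=
  (∃ u : Aˣ, w (num 0) = (u : A) • ![1, 0, 0]) ∧ (∃ u : Aˣ, w e2 = (u : A) • ![0, 1, 0]) ∧
    (∃ u : Aˣ, w e3 = (u : A) • ![0, 0, 1]) ∧ ∃ u : Aˣ, w e4 = (u : A) • ![1, 1, 1]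

/-- every normalised family with the same matroid is a specialisation, up to unit factors -/
def Good (𝒱 : Finset (Vec m)) (a : Fin m → F) : Prop :=
  ∀ (A : Type) [CommRing A] (w : Vec m → Fin 3 → A), Pattern 𝒱 a w → Normal w →
    ∃ x : Fin m → A, ∀ v ∈ 𝒱, ∃ u : Aˣ, w v = (u : A) • ev x v

theorem Pattern.mono {A : Type} [CommRing A] {𝒱 𝒱' : Finset (Vec m)} {a : Fin m → F}
    {w : Vec m → Fin 3 → A} (h : Pattern 𝒱' a w) (hs : 𝒱 ⊆ 𝒱') : Pattern 𝒱 a w :=
  fun u hu v hv t ht => h u (hs hu) v (hs hv) t (hs ht)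

open Classical in
theorem Good.ins {𝒱 : Finset (Vec m)} {a : Fin m → F} (hG : Good 𝒱 a) (v' : Vec m)
    {p q r s b c : Vec m} (hp : p ∈ 𝒱) (hq : q ∈ 𝒱) (hr : r ∈ 𝒱) (hs : s ∈ 𝒱) (hb : b ∈ 𝒱)
    (hc : c ∈ 𝒱)
    (h1 : ∀ (A : Type) [CommRing A] (x : Fin m → A) (t : Fin 3 → A),
      det3 (ev x p) (ev x q) t = 0 → det3 (ev x r) (ev x s) t = 0 →
      IsUnit (det3 (ev x b) (ev x c) t) → ∃ u : Aˣ, t = (u : A) • ev x v')
    (hz1 : det3 (ev a p) (ev a q) (ev a v') = 0) (hz2 : det3 (ev a r) (ev a s) (ev a v') = 0)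
    (hz3 : det3 (ev a b) (ev a c) (ev a v') ≠ 0) : Good (insert v' 𝒱) a := by
  intro A _ w hw hn
  obtain ⟨x, hx⟩ := hG A w (hw.mono (Finset.subset_insert _ _)) hn
  refine ⟨x, fun v hv => ?_⟩
  rcases Finset.mem_insert.1 hv with rfl | hv
  · have hm : ∀ y ∈ 𝒱, y ∈ insert v 𝒱 := fun y hy => Finset.mem_insert_of_mem hy
    have hv0 : v ∈ insert v 𝒱 := Finset.mem_insert_self _ _
    have k1 := (hw p (hm p hp) q (hm q hq) v hv0).1 hz1
    have k2 := (hw r (hm r hr) s (hm s hs) v hv0).1 hz2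
    have k3 := (hw b (hm b hb) c (hm c hc) v hv0).2 hz3
    obtain ⟨up, ep⟩ := hx p hp
    obtain ⟨uq, eq⟩ := hx q hq
    obtain ⟨ur, er⟩ := hx r hr
    obtain ⟨us, es⟩ := hx s hs
    obtain ⟨ub, eb⟩ := hx b hb
    obtain ⟨uc, ec⟩ := hx c hc
    have e1 : w v = (1 : A) • w v := (one_smul _ _).symm
    rw [ep, eq, e1, det3_smul, mul_one] at k1
    rw [er, es, e1, det3_smul, mul_one] at k2
    rw [eb, ec, e1, det3_smul, mul_one] at k3
    refine h1 A x (w v) ?_ ?_ ?_
    · exact ((up * uq).isUnit.mul_right_eq_zero).1 (by rw [Units.val_mul]; exact k1)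
    · exact ((ur * us).isUnit.mul_right_eq_zero).1 (by rw [Units.val_mul]; exact k2)
    · exact isUnit_of_mul_isUnit_right k3
  · exact hx v hv

open Classical in
/-- the frame, the variables and three auxiliary points -/
noncomputable def core (m : ℕ) : Finset (Vec m) :=
  insert vD (insert (num 1) (insert vB (frame m ∪ Finset.univ.image fun k => num (X k))))

open Classical in
theorem good_base (a : Fin m → F) :
    Good (frame m ∪ Finset.univ.image fun k => num (X k)) a := by
  intro A _ w hw ⟨⟨u1, h1⟩, ⟨u2, h2⟩, ⟨u3, h3⟩, ⟨u4, h4⟩⟩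
  have m1 : (num 0 : Vec m) ∈ frame m ∪ Finset.univ.image fun k => num (X k) := by simp [frame]
  have m2 : (e2 : Vec m) ∈ frame m ∪ Finset.univ.image fun k => num (X k) := by simp [frame]
  have m3 : (e3 : Vec m) ∈ frame m ∪ Finset.univ.image fun k => num (X k) := by simp [frame]
  have key : ∀ k, ∃ (x : A) (u : Aˣ), w (num (X k)) = (u : A) • ![1, x, 0] := by
    intro k
    have mk : num (X k) ∈ frame m ∪ Finset.univ.image fun k => num (X k) := by
      rw [Finset.mem_union]
      exact Or.inr (Finset.mem_image_of_mem _ (Finset.mem_univ k))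
    have k1 := (hw _ m1 _ m2 _ mk).1 (by simp [det3_eq])
    have k2 := (hw _ m2 _ m3 _ mk).2 (by simp [det3_eq])
    rw [h1, h2, show w (num (X k)) = (1 : A) • w (num (X k)) from (one_smul _ _).symm,
      det3_smul] at k1
    rw [h2, h3, show w (num (X k)) = (1 : A) • w (num (X k)) from (one_smul _ _).symm,
      det3_smul] at k2
    simp only [det3_eq, Matrix.cons_val_zero, Matrix.cons_val_one, Matrix.cons_val] at k1 k2
    have k1' : w (num (X k)) 2 = 0 := by
      refine ((u1 * u2).isUnit.mul_right_eq_zero).1 ?_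
      rw [Units.val_mul]
      linear_combination k1
    have k2' : IsUnit (w (num (X k)) 0) := by
      refine isUnit_of_mul_isUnit_right (x := (u2 : A) * u3) ?_
      convert k2 using 1
      ring
    refine ⟨k2'.unit⁻¹ * w (num (X k)) 1, k2'.unit, ?_⟩
    ext c
    fin_cases c
    · simp
    · have h5 : w (num (X k)) 0 * (k2'.unit⁻¹ : Aˣ) = 1 := k2'.mul_val_inv
      simp only [Fin.mk_one, Matrix.cons_val_one, Pi.smul_apply, smul_eq_mul, IsUnit.unit_spec]
      simp only [Matrix.cons_val_zero]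
      linear_combination (-w (num (X k)) 1) * h5
    · simp [k1']
  choose x u hx using key
  refine ⟨x, fun v hv => ?_⟩
  rcases Finset.mem_union.1 hv with hv | hv
  · simp only [frame, Finset.mem_insert, Finset.mem_singleton] at hv
    rcases hv with rfl | rfl | rfl | rfl
    · exact ⟨u1, by simpa using h1⟩
    · exact ⟨u2, by simpa using h2⟩
    · exact ⟨u3, by simpa using h3⟩
    · exact ⟨u4, by simpa using h4⟩
  · obtain ⟨k, -, rfl⟩ := Finset.mem_image.1 hv
    exact ⟨u k, by simpa using hx k⟩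

section steps

variable {𝒱 : Finset (Vec m)} {a : Fin m → F}

open Classical in
/-- adding a point `v'` with `v' 0 = 1` -/
theorem Good.ins0 (hG : Good 𝒱 a) (h2 : (e2 : Vec m) ∈ 𝒱) (h3 : (e3 : Vec m) ∈ 𝒱)
    (y z : MvPolynomial (Fin m) ℤ) {p q r s : Vec m} (hp : p ∈ 𝒱) (hq : q ∈ 𝒱) (hr : r ∈ 𝒱)
    (hs : s ∈ 𝒱)
    (h1 : ∀ (A : Type) [CommRing A] (x : Fin m → A) (t : Fin 3 → A),
      det3 (ev x p) (ev x q) t = 0 → det3 (ev x r) (ev x s) t = 0 →
      t 1 = aeval x y * t 0 ∧ t 2 = aeval x z * t 0)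
    (hz : ∀ (A : Type) [CommRing A] (x : Fin m → A),
      det3 (ev x p) (ev x q) ![1, aeval x y, aeval x z] = 0 ∧
        det3 (ev x r) (ev x s) ![1, aeval x y, aeval x z] = 0) :
    Good (insert (![1, y, z] : Vec m) 𝒱) a := by
  refine hG.ins _ hp hq hr hs h2 h3 (fun A _ x t k1 k2 k3 => ?_) ?_ ?_ ?_
  · obtain ⟨k4, k5⟩ := h1 A x t k1 k2
    have k6 : IsUnit (t 0) := by
      convert k3 using 1
      simp [det3_eq]
    refine ⟨k6.unit, ?_⟩
    ext c
    fin_cases c
    · simp
    · simp [k4, mul_comm]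
    · simp [k5, mul_comm]
  · have := (hz F a).1
    rw [ev_cons, map_one]
    exact this
  · have := (hz F a).2
    rw [ev_cons, map_one]
    exact this
  · simp [det3_eq]

theorem core_mem : (num 0 : Vec m) ∈ core m ∧ (e2 : Vec m) ∈ core m ∧ (e3 : Vec m) ∈ core m ∧
    (e4 : Vec m) ∈ core m ∧ (vB : Vec m) ∈ core m ∧ (num 1 : Vec m) ∈ core m ∧
    (vD : Vec m) ∈ core m ∧ ∀ k, (num (X k) : Vec m) ∈ core m := by
  classical
  refine ⟨?_, ?_, ?_, ?_, ?_, ?_, ?_, fun k => ?_⟩ <;> simp [core, frame]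

open Classical in
/-- a point at infinity, of the form `(0, 1, -q)` -/
theorem Good.insE (hG : Good 𝒱 a) (h0 : (num 0 : Vec m) ∈ 𝒱) (h2 : (e2 : Vec m) ∈ 𝒱)
    (h3 : (e3 : Vec m) ∈ 𝒱) (y : MvPolynomial (Fin m) ℤ) {p q : Vec m} (hp : p ∈ 𝒱) (hq : q ∈ 𝒱)
    (h1 : ∀ (A : Type) [CommRing A] (x : Fin m → A) (t : Fin 3 → A), t 0 = 0 →
      det3 (ev x p) (ev x q) t = 0 → t 2 = -(aeval x y * t 1))
    (hz : ∀ (A : Type) [CommRing A] (x : Fin m → A),
      det3 (ev x p) (ev x q) ![0, 1, -aeval x y] = 0) :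
    Good (insert (![0, 1, -y] : Vec m) 𝒱) a := by
  refine hG.ins _ hp hq h2 h3 h3 h0 (fun A _ x t k1 k2 k3 => ?_) ?_ ?_ ?_
  · have k4 : t 0 = 0 := by
      rw [← k2]
      simp [det3_eq]
    have k5 := h1 A x t k4 k1
    have k6 : IsUnit (t 1) := by
      convert k3 using 1
      simp [det3_eq]
    refine ⟨k6.unit, ?_⟩
    ext c
    fin_cases c
    · simp [k4]
    · simp
    · simp [k5, mul_comm]
  · have := hz F a
    rw [ev_cons, map_one, map_zero, map_neg]
    exact this
  · simp [det3_eq]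
  · simp [det3_eq]

theorem good_core (a : Fin m → F) : Good (core m) a := by
  classical
  have h0 := good_base a
  set 𝒱₀ := frame m ∪ Finset.univ.image fun k => (num (X k) : Vec m) with h𝒱
  have m1 : (num 0 : Vec m) ∈ 𝒱₀ := by simp [h𝒱, frame]
  have m2 : (e2 : Vec m) ∈ 𝒱₀ := by simp [h𝒱, frame]
  have m3 : (e3 : Vec m) ∈ 𝒱₀ := by simp [h𝒱, frame]
  have m4 : (e4 : Vec m) ∈ 𝒱₀ := by simp [h𝒱, frame]
  have i1 : Good (insert (vB : Vec m) 𝒱₀) a := by
    refine h0.ins0 m2 m3 0 1 m1 m3 m4 m2 (fun A _ x t k1 k2 => ?_) fun A _ x => ?_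
    · simp only [ev_num, ev_e2, ev_e3, ev_e4, det3_eq, Matrix.cons_val_zero, Matrix.cons_val_one,
        Matrix.cons_val, map_zero, map_one] at k1 k2 ⊢
      exact ⟨by linear_combination -k1, by linear_combination k2⟩
    · simp [det3_eq]
  have i2 : Good (insert (num 1 : Vec m) (insert (vB : Vec m) 𝒱₀)) a := by
    refine i1.ins0 (by simp [m2]) (by simp [m3]) 1 0 (p := e4) (q := e3) (r := num 0) (s := e2)
      (by simp [m4]) (by simp [m3]) (by simp [m1]) (by simp [m2])
      (fun A _ x t k1 k2 => ?_) fun A _ x => ?_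
    · simp only [ev_num, ev_e2, ev_e3, ev_e4, det3_eq, Matrix.cons_val_zero, Matrix.cons_val_one,
        Matrix.cons_val, map_zero, map_one] at k1 k2 ⊢
      exact ⟨by linear_combination -k1, by linear_combination k2⟩
    · simp [det3_eq]
  refine i2.insE (by simp [m1]) (by simp [m2]) (by simp [m3]) 1 (p := vB) (q := num 1)
    (by simp) (by simp) (fun A _ x t k1 k2 => ?_) fun A _ x => ?_
  · simp only [ev_num, ev_vB, det3_eq, Matrix.cons_val_zero, Matrix.cons_val_one,
      Matrix.cons_val, map_zero, map_one] at k1 k2 ⊢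
    linear_combination k2 + k1
  · simp [det3_eq]

/-- the number `p` can be constructed in an extension of every good configuration -/
def Reach (a : Fin m → F) (p : MvPolynomial (Fin m) ℤ) : Prop :=
  ∀ 𝒱 : Finset (Vec m), core m ⊆ 𝒱 → Good 𝒱 a → ∃ 𝒱', 𝒱 ⊆ 𝒱' ∧ Good 𝒱' a ∧ num p ∈ 𝒱'

theorem reach_zero (a : Fin m → F) : Reach a 0 :=
  fun 𝒱 h hG => ⟨𝒱, subset_rfl, hG, h core_mem.1⟩

theorem reach_one (a : Fin m → F) : Reach a 1 :=
  fun 𝒱 h hG => ⟨𝒱, subset_rfl, hG, h core_mem.2.2.2.2.2.1⟩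

theorem reach_X (a : Fin m → F) (k : Fin m) : Reach a (X k) :=
  fun 𝒱 h hG => ⟨𝒱, subset_rfl, hG, h (core_mem.2.2.2.2.2.2.2 k)⟩

theorem reach_add {a : Fin m → F} {p q : MvPolynomial (Fin m) ℤ} (hp : Reach a p)
    (hq : Reach a q) : Reach a (p + q) := by
  classical
  intro 𝒱 hc hG
  obtain ⟨𝒱₁, s1, g1, n1⟩ := hp 𝒱 hc hG
  obtain ⟨𝒱₂, s2, g2, n2⟩ := hq 𝒱₁ (hc.trans s1) g1
  have n1' := s2 n1
  have hc2 := (hc.trans s1).trans s2
  obtain ⟨c1, c2, c3, c4, c5, c6, c7, -⟩ := core_mem (m := m)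
  have i1 : Good (insert (![1, p, 1] : Vec m) 𝒱₂) a := by
    refine g2.ins0 (hc2 c2) (hc2 c3) p 1 n1' (hc2 c3) (hc2 c5) (hc2 c2)
      (fun A _ x t k1 k2 => ?_) fun A _ x => ?_
    · simp only [ev_num, ev_e2, ev_e3, ev_vB, det3_eq, Matrix.cons_val_zero, Matrix.cons_val_one,
        Matrix.cons_val, map_zero, map_one] at k1 k2 ⊢
      exact ⟨by linear_combination -k1, by linear_combination k2⟩
    · simp [det3_eq]
  have i2 : Good (insert (![0, q, -1] : Vec m) (insert (![1, p, 1] : Vec m) 𝒱₂)) a := by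
    refine i1.ins _ (p := vB) (q := num q) (r := e2) (s := e3) (b := num 0) (c := e2)
      (by simp [hc2 c5]) (by simp [n2]) (by simp [hc2 c2]) (by simp [hc2 c3]) (by simp [hc2 c1])
      (by simp [hc2 c2]) (fun A _ x t k1 k2 k3 => ?_) ?_ ?_ ?_
    · have k6 : IsUnit (-t 2) := by
        rw [IsUnit.neg_iff]
        convert k3 using 1
        simp [det3_eq]
      simp only [ev_num, ev_e2, ev_e3, ev_vB, det3_eq, Matrix.cons_val_zero, Matrix.cons_val_one,
        Matrix.cons_val, map_zero, map_one] at k1 k2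
      refine ⟨k6.unit, ?_⟩
      ext c
      fin_cases c
      · simp only [Fin.zero_eta, ev_cons, map_zero, map_neg, map_one, Pi.smul_apply,
          Matrix.cons_val_zero, smul_eq_mul, mul_zero]
        linear_combination k2
      · simp only [Fin.mk_one, ev_cons, map_zero, map_neg, map_one, Pi.smul_apply,
          Matrix.cons_val_one, Matrix.cons_val_zero, smul_eq_mul, IsUnit.unit_spec]
        linear_combination k1 + (aeval x q) * k2
      · simp
    · simp [det3_eq]
    · simp [det3_eq]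
    · simp [det3_eq]
  refine ⟨insert (num (p + q)) (insert (![0, q, -1] : Vec m) (insert (![1, p, 1] : Vec m) 𝒱₂)),
    ?_, ?_, Finset.mem_insert_self _ _⟩
  · refine (s1.trans s2).trans fun v hv => ?_
    simp [hv]
  · refine i2.ins0 (by simp [hc2 c2]) (by simp [hc2 c3]) (p + q) 0 (p := num 0) (q := e2)
      (r := ![1, p, 1]) (s := ![0, q, -1]) (by simp [hc2 c1]) (by simp [hc2 c2]) (by simp)
      (by simp) (fun A _ x t k1 k2 => ?_) fun A _ x => ?_
    · simp only [ev_num, ev_e2, ev_cons, det3_eq, Matrix.cons_val_zero, Matrix.cons_val_one,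
        Matrix.cons_val, map_zero, map_one, map_neg, map_add] at k1 k2 ⊢
      exact ⟨by linear_combination k2 - (aeval x q) * k1, by linear_combination k1⟩
    · simp [det3_eq]

theorem reach_mul {a : Fin m → F} {p q : MvPolynomial (Fin m) ℤ} (hp : Reach a p)
    (hq : Reach a q) : Reach a (p * q) := by
  classical
  intro 𝒱 hc hG
  obtain ⟨𝒱₁, s1, g1, n1⟩ := hp 𝒱 hc hG
  obtain ⟨𝒱₂, s2, g2, n2⟩ := hq 𝒱₁ (hc.trans s1) g1
  have n1' := s2 n1
  have hc2 := (hc.trans s1).trans s2
  obtain ⟨c1, c2, c3, c4, c5, c6, c7, -⟩ := core_mem (m := m)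
  have i1 : Good (insert (![1, 0, q] : Vec m) 𝒱₂) a := by
    refine g2.ins0 (hc2 c2) (hc2 c3) 0 q (hc2 c1) (hc2 c3) n2 (hc2 c7)
      (fun A _ x t k1 k2 => ?_) fun A _ x => ?_
    · simp only [ev_num, ev_e2, ev_e3, ev_vD, det3_eq, Matrix.cons_val_zero, Matrix.cons_val_one,
        Matrix.cons_val, map_zero, map_one] at k1 k2 ⊢
      exact ⟨by linear_combination -k1, by linear_combination k2 + k1⟩
    · simp [det3_eq]
  have i2 : Good (insert (![0, 1, -q] : Vec m) (insert (![1, 0, q] : Vec m) 𝒱₂)) a := by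
    refine i1.insE (by simp [hc2 c1]) (by simp [hc2 c2]) (by simp [hc2 c3]) q (p := num 1)
      (q := ![1, 0, q]) (by simp [hc2 c6]) (by simp) (fun A _ x t k1 k2 => ?_) fun A _ x => ?_
    · simp only [ev_num, ev_cons, det3_eq, Matrix.cons_val_zero, Matrix.cons_val_one,
        Matrix.cons_val, map_zero, map_one] at k1 k2 ⊢
      linear_combination -k2 + (aeval x q) * k1
    · simp [det3_eq]
  have i3 : Good (insert (![1, 0, p * q] : Vec m)
      (insert (![0, 1, -q] : Vec m) (insert (![1, 0, q] : Vec m) 𝒱₂))) a := by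
    refine i2.ins0 (by simp [hc2 c2]) (by simp [hc2 c3]) 0 (p * q) (p := num 0) (q := e3)
      (r := num p) (s := ![0, 1, -q]) (by simp [hc2 c1]) (by simp [hc2 c3]) (by simp [n1'])
      (by simp) (fun A _ x t k1 k2 => ?_) fun A _ x => ?_
    · simp only [ev_num, ev_e3, ev_cons, det3_eq, Matrix.cons_val_zero, Matrix.cons_val_one,
        Matrix.cons_val, map_zero, map_one, map_neg, map_mul] at k1 k2 ⊢
      exact ⟨by linear_combination -k1, by linear_combination k2 + (aeval x q) * k1⟩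
    · simp [det3_eq]
  refine ⟨insert (num (p * q)) (insert (![1, 0, p * q] : Vec m)
      (insert (![0, 1, -q] : Vec m) (insert (![1, 0, q] : Vec m) 𝒱₂))),
    ?_, ?_, Finset.mem_insert_self _ _⟩
  · refine (s1.trans s2).trans fun v hv => ?_
    simp [hv]
  · refine i3.ins0 (by simp [hc2 c2]) (by simp [hc2 c3]) (p * q) 0 (p := num 0) (q := e2)
      (r := ![1, 0, p * q]) (s := vD) (by simp [hc2 c1]) (by simp [hc2 c2]) (by simp)
      (by simp [hc2 c7]) (fun A _ x t k1 k2 => ?_) fun A _ x => ?_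
    · simp only [ev_num, ev_e2, ev_vD, ev_cons, det3_eq, Matrix.cons_val_zero,
        Matrix.cons_val_one, Matrix.cons_val, map_zero, map_one, map_neg, map_mul] at k1 k2 ⊢
      exact ⟨by linear_combination k2 - k1, by linear_combination k1⟩
    · simp [det3_eq]

/-- every polynomial is a difference of constructible ones -/
theorem exists_sub (a : Fin m → F) (g : MvPolynomial (Fin m) ℤ) :
    ∃ p q, Reach a p ∧ Reach a q ∧ g = p - q := by
  have hnat : ∀ n : ℕ, Reach a (n : MvPolynomial (Fin m) ℤ) := by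
    intro n
    induction n with
    | zero => simpa using reach_zero a
    | succ n ih => simpa using reach_add ih (reach_one a)
  induction g using MvPolynomial.induction_on with
  | C c =>
    obtain ⟨n, rfl | rfl⟩ := c.eq_nat_or_neg
    · exact ⟨n, 0, hnat n, reach_zero a, by simp⟩
    · exact ⟨0, n, reach_zero a, hnat n, by simp⟩
  | add f g hf hg =>
    obtain ⟨p, q, h1, h2, rfl⟩ := hf
    obtain ⟨p', q', h1', h2', rfl⟩ := hg
    exact ⟨p + p', q + q', reach_add h1 h1', reach_add h2 h2', by ring⟩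
  | mul_X f k hf =>
    obtain ⟨p, q, h1, h2, rfl⟩ := hf
    exact ⟨p * X k, q * X k, reach_mul h1 (reach_X a k), reach_mul h2 (reach_X a k), by ring⟩

/-- a good configuration which contains the numbers of a list -/
theorem exists_good (a : Fin m → F) (L : List (MvPolynomial (Fin m) ℤ)) (hL : ∀ p ∈ L, Reach a p) :
    ∃ 𝒱 : Finset (Vec m), core m ⊆ 𝒱 ∧ Good 𝒱 a ∧ ∀ p ∈ L, num p ∈ 𝒱 := by
  induction L with
  | nil => exact ⟨core m, subset_rfl, good_core a, by simp⟩
  | cons p L ih =>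
    obtain ⟨𝒱, h1, h2, h3⟩ := ih fun q hq => hL q (List.mem_cons_of_mem _ hq)
    obtain ⟨𝒱', h4, h5, h6⟩ := hL p List.mem_cons_self 𝒱 h1 h2
    refine ⟨𝒱', h1.trans h4, h5, fun q hq => ?_⟩
    rcases List.mem_cons.1 hq with rfl | hq
    · exact h6
    · exact h4 (h3 q hq)

end steps

end Pool.Agent.L5helper73.PC
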